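import Pool.Agent.Helper35.HS3.GoalsD

/-!
For MP_66e6f4_an, project HS3 of helper35, packet FQA: integral identities for the frequency.
-/

namespace Pool.Agent.Helper87.HS3.FQA

open MeasureTheory Set Filter Topology Metric
open scoped ContDiff
open Pool.Agent.Helper35.HS3

theorem bw_cd3 (r : ℝ) : ContDiff ℝ 1 (fun x => bw r x ^ 3) := contDiff_maxpow (r ^ 2) 1

theorem bw_c (r : ℝ) : Continuous (bw r) := by
  unfold bw; fun_prop

theorem bw_cs (r : ℝ) : HasCompactSupport (bw r) := by
  refine HasCompactSupport.intro (isCompact_closedBall (0 : E) |r|) fun x hx => ?_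
  rw [mem_closedBall, dist_zero_right, not_le] at hx
  unfold bw
  apply max_eq_left
  have : |r| ^ 2 ≤ ‖x‖ ^ 2 := by gcongr
  rw [sq_abs] at this
  linarith

theorem bw_csp (r : ℝ) {n : ℕ} (hn : n ≠ 0) : HasCompactSupport (fun x => bw r x ^ n) :=
  (bw_cs r).comp_left (g := fun t : ℝ => t ^ n) (zero_pow hn)

theorem int_bw {φ : E → ℝ} (hφ : Continuous φ) (r : ℝ) {n : ℕ} (hn : n ≠ 0) :
    Integrable (fun x => φ x * bw r x ^ n) :=
  (hφ.mul ((bw_c r).pow n)).integrable_of_hasCompactSupport (bw_csp r hn).mul_left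

theorem pd_bw3 (r : ℝ) (i : Fin 3) (x : E) :
    pd i (fun x => bw r x ^ 3) x = -(6 * x i * bw r x ^ 2) := by
  have := pd_maxpow (r ^ 2) 1 i x
  unfold bw
  rw [this]
  norm_num

/-- The divergence theorem with the weight. -/
theorem div_bw (r : ℝ) {Ψ : Fin 3 → E → ℝ} (hΨ : ∀ i, ContDiff ℝ 1 (Ψ i)) :
    ∫ x, (∑ i, pd i (Ψ i) x) * bw r x ^ 3 = 6 * ∫ x, (∑ i, x i * Ψ i x) * bw r x ^ 2 := by
  have h1 : ∀ i, ∫ x, pd i (Ψ i) x * bw r x ^ 3 = 6 * ∫ x, x i * Ψ i x * bw r x ^ 2 := by
    intro i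
    have h := integral_mul_pd i (bw_cd3 r) (bw_csp r (by norm_num)) (hΨ i)
    simp only [pd_bw3] at h
    rw [← integral_const_mul]
    rw [← integral_neg] at h
    refine Eq.trans ?_ (h.trans ?_)
    · refine integral_congr_ae (Eventually.of_forall fun x => ?_)
      beta_reduce; ring
    · refine integral_congr_ae (Eventually.of_forall fun x => ?_)
      beta_reduce; ring
  have i1 : ∀ i : Fin 3, Integrable (fun x => pd i (Ψ i) x * bw r x ^ 3) := fun i =>
    int_bw (continuous_pd (hΨ i)) r (by norm_num)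
  have i2 : ∀ i : Fin 3, Integrable (fun x : E => x i * Ψ i x * bw r x ^ 2) := fun i =>
    int_bw ((contDiff_coord (n := 1) i).continuous.mul (hΨ i).continuous) r (by norm_num)
  simp_rw [Finset.sum_mul]
  rw [integral_finsetSum _ fun i _ => i1 i, integral_finsetSum _ fun i _ => i2 i, Finset.mul_sum]
  exact Finset.sum_congr rfl fun i _ => h1 i

theorem dx (i : Fin 3) (x : E) : DifferentiableAt ℝ (fun y : E => y i) x :=
  diff_of_one (contDiff_coord i) x

theorem second (r : ℝ) : ∫ x, bw r x ^ 3 = 2 * ∫ x : E, ‖x‖ ^ 2 * bw r x ^ 2 := by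
  have h := div_bw r (Ψ := fun i x => x i) fun i => contDiff_coord i
  have e1 : ∀ x : E, ∑ i, pd i (fun y : E => y i) x = 3 := by
    intro x; simp [pd_coord]
  have e2 : ∀ x : E, ∑ i, x i * x i = ‖x‖ ^ 2 := by
    intro x; rw [norm_sq_eq]; simp [pow_two]
  simp only [e1, e2] at h
  rw [integral_const_mul] at h
  linarith

theorem first {v : E → ℝ} (κ r : ℝ) (hv : ContDiff ℝ 2 v) :
    II v κ r + EE v r = 6 * ∫ x, (v x * fderiv ℝ v x x + κ * ‖x‖ ^ 2) * bw r x ^ 2 := by
  have hv1 : ContDiff ℝ 1 v := hv.of_le (by norm_num)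
  have h := div_bw r (Ψ := fun i x => v x * pd i v x) fun i => hv1.mul (contDiff_one_pd hv)
  have e1 : ∀ x : E, ∑ i, pd i (fun x => v x * pd i v x) x = gsq v x + v x * lap v x := by
    intro x
    have : ∀ i, pd i (fun x => v x * pd i v x) x = v x * pd i (pd i v) x + pd i v x * pd i v x :=
      fun i => pd_mul (diff_of_one hv1 x) (diff_pd hv i x)
    simp only [this, gsq, lap, Fin.sum_univ_three]
    ring
  have e2 : ∀ x : E, ∑ i, x i * (v x * pd i v x) = v x * fderiv ℝ v x x := by
    intro x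
    rw [fderiv_eq_sum]
    simp only [Fin.sum_univ_three]
    ring
  simp only [e1, e2] at h
  have hs := second r
  have hcf : Continuous fun x : E => fderiv ℝ v x x := by
    have : Continuous (fderiv ℝ v) := hv1.continuous_fderiv (by norm_num)
    exact this.clm_apply continuous_id
  have a1 : II v κ r + EE v r = (∫ x, (gsq v x + v x * lap v x) * bw r x ^ 3) +
      3 * κ * ∫ x, bw r x ^ 3 := by
    unfold II EE
    have i1 : Integrable (fun x => (gsq v x + 3 * κ) * bw r x ^ 3) :=
      int_bw ((continuous_gsq hv1).add continuous_const) r (by norm_num)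
    have i2 : Integrable (fun x => v x * lap v x * bw r x ^ 3) :=
      int_bw (hv.continuous.mul (continuous_lap hv)) r (by norm_num)
    have i3 : Integrable (fun x => (gsq v x + v x * lap v x) * bw r x ^ 3) :=
      int_bw ((continuous_gsq hv1).add (hv.continuous.mul (continuous_lap hv))) r (by norm_num)
    have i4 : Integrable (fun x => 3 * κ * bw r x ^ 3) := int_bw continuous_const r (by norm_num)
    rw [← integral_add i1 i2, ← integral_const_mul, ← integral_add i3 i4]
    refine integral_congr_ae (Eventually.of_forall fun x => ?_)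
    beta_reduce; ring
  have a2 : ∫ x, (v x * fderiv ℝ v x x + κ * ‖x‖ ^ 2) * bw r x ^ 2 =
      (∫ x, v x * fderiv ℝ v x x * bw r x ^ 2) + κ * ∫ x : E, ‖x‖ ^ 2 * bw r x ^ 2 := by
    have i1 : Integrable (fun x => v x * fderiv ℝ v x x * bw r x ^ 2) :=
      int_bw (hv.continuous.mul hcf) r (by norm_num)
    have i2 : Integrable (fun x : E => κ * (‖x‖ ^ 2 * bw r x ^ 2)) :=
      (int_bw (φ := fun x : E => ‖x‖ ^ 2) (by fun_prop) r (by norm_num)).const_mul κ
    rw [← integral_const_mul, ← integral_add i1 i2]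
    refine integral_congr_ae (Eventually.of_forall fun x => ?_)
    beta_reduce; ring
  rw [a1, a2, h, hs]
  ring

theorem third {v : E → ℝ} (r : ℝ) (hv : ContDiff ℝ 2 v) {G : E → ℝ} (hG : ContDiff ℝ 1 G)
    (hGp : ∀ i x, pd i G x = lap v x * pd i v x) :
    ∫ x, fderiv ℝ (gsq v) x x * bw r x ^ 3 =
      12 * (∫ x, fderiv ℝ v x x ^ 2 * bw r x ^ 2) - 2 * (∫ x, gsq v x * bw r x ^ 3) + E2 G r := by
  have hv1 : ContDiff ℝ 1 v := hv.of_le (by norm_num)
  have hD : ContDiff ℝ 1 fun x : E => x 0 * pd 0 v x + x 1 * pd 1 v x + x 2 * pd 2 v x :=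
    (((contDiff_coord 0).mul (contDiff_one_pd hv)).add
      ((contDiff_coord 1).mul (contDiff_one_pd hv))).add
      ((contDiff_coord 2).mul (contDiff_one_pd hv))
  have hDe : ∀ x : E, x 0 * pd 0 v x + x 1 * pd 1 v x + x 2 * pd 2 v x = fderiv ℝ v x x := by
    intro x
    rw [fderiv_eq_sum]
    simp only [Fin.sum_univ_three]
  have h1 := div_bw r (Ψ := fun j x => (x 0 * pd 0 v x + x 1 * pd 1 v x + x 2 * pd 2 v x) *
    pd j v x) fun j => hD.mul (contDiff_one_pd hv)
  have h2 := div_bw r (Ψ := fun i x => x i * G x) fun i => (contDiff_coord i).mul hG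
  have pdD : ∀ (j : Fin 3) (x : E),
      pd j (fun x : E => x 0 * pd 0 v x + x 1 * pd 1 v x + x 2 * pd 2 v x) x =
      pd j v x + (x 0 * pd j (pd 0 v) x + x 1 * pd j (pd 1 v) x + x 2 * pd j (pd 2 v) x) := by
    intro j x
    have dm : ∀ i : Fin 3, DifferentiableAt ℝ (fun y : E => y i * pd i v y) x := fun i =>
      (dx i x).mul (diff_pd hv i x)
    have dm01 : DifferentiableAt ℝ (fun y : E => y 0 * pd 0 v y + y 1 * pd 1 v y) x :=
      (dm 0).add (dm 1)
    rw [pd_add dm01 (dm 2), pd_add (dm 0) (dm 1), pd_mul (dx 0 x) (diff_pd hv 0 x),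
      pd_mul (dx 1 x) (diff_pd hv 1 x), pd_mul (dx 2 x) (diff_pd hv 2 x), pd_coord, pd_coord,
      pd_coord]
    fin_cases j <;> simp <;> ring
  have gs : ∀ x : E, fderiv ℝ (gsq v) x x =
      2 * ∑ i, ∑ j, x i * pd j v x * pd i (pd j v) x := by
    intro x
    rw [fderiv_eq_sum]
    have e : ∀ i, pd i (gsq v) x = 2 * ∑ j, pd j v x * pd i (pd j v) x := by
      intro i
      have e1 : gsq v = fun y => pd 0 v y ^ 2 + pd 1 v y ^ 2 + pd 2 v y ^ 2 := by
        funext y; simp only [gsq, Fin.sum_univ_three]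
      have dp : ∀ j : Fin 3, DifferentiableAt ℝ (fun y => pd j v y ^ 2) x := fun j =>
        (diff_pd hv j x).pow 2
      have dp01 : DifferentiableAt ℝ (fun y => pd 0 v y ^ 2 + pd 1 v y ^ 2) x := (dp 0).add (dp 1)
      rw [e1, pd_add dp01 (dp 2), pd_add (dp 0) (dp 1), pd_pow 2 (diff_pd hv 0 x),
        pd_pow 2 (diff_pd hv 1 x), pd_pow 2 (diff_pd hv 2 x)]
      simp only [Fin.sum_univ_three, Nat.cast_ofNat, Nat.add_one_sub_one, pow_one]
      ring
    simp only [e, Fin.sum_univ_three]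
    ring
  have e1 : ∀ x : E, ∑ j, pd j (fun x => (x 0 * pd 0 v x + x 1 * pd 1 v x + x 2 * pd 2 v x) *
      pd j v x) x = gsq v x + fderiv ℝ (gsq v) x x / 2 + fderiv ℝ v x x * lap v x := by
    intro x
    have : ∀ j, pd j (fun x => (x 0 * pd 0 v x + x 1 * pd 1 v x + x 2 * pd 2 v x) *
        pd j v x) x = (x 0 * pd 0 v x + x 1 * pd 1 v x + x 2 * pd 2 v x) * pd j (pd j v) x +
        pd j v x * (pd j v x + (x 0 * pd j (pd 0 v) x + x 1 * pd j (pd 1 v) x +
          x 2 * pd j (pd 2 v) x)) := by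
      intro j
      rw [← pdD j x]
      exact pd_mul (diff_of_one hD x) (diff_pd hv j x)
    simp only [this]
    rw [gs x, ← hDe x]
    have s01 := pd_symm (hv.contDiffAt (x := x)) 0 1
    have s02 := pd_symm (hv.contDiffAt (x := x)) 0 2
    have s12 := pd_symm (hv.contDiffAt (x := x)) 1 2
    simp only [gsq, lap, Fin.sum_univ_three, s01, s02, s12]
    ring
  have e2 : ∀ x : E, ∑ j, x j * ((x 0 * pd 0 v x + x 1 * pd 1 v x + x 2 * pd 2 v x) *
      pd j v x) = fderiv ℝ v x x ^ 2 := by
    intro x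
    rw [← hDe x]
    simp only [Fin.sum_univ_three]
    ring
  have e3 : ∀ x : E, ∑ i, pd i (fun x : E => x i * G x) x =
      3 * G x + fderiv ℝ v x x * lap v x := by
    intro x
    have : ∀ i, pd i (fun x : E => x i * G x) x = x i * (lap v x * pd i v x) + G x := by
      intro i
      have := pd_mul (i := i) (dx i x) (diff_of_one hG x)
      rw [hGp, pd_coord, if_pos rfl, mul_one] at this
      exact this
    simp only [this]
    rw [← hDe x]
    simp only [Fin.sum_univ_three]
    ring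
  have e4 : ∀ x : E, ∑ i, x i * (x i * G x) = ‖x‖ ^ 2 * G x := by
    intro x
    rw [norm_sq_eq3]
    simp only [Fin.sum_univ_three]
    ring
  simp only [e1, e2] at h1
  simp only [e3, e4] at h2
  have hcf : Continuous fun x : E => fderiv ℝ v x x := by
    have : Continuous (fderiv ℝ v) := hv1.continuous_fderiv (by norm_num)
    exact this.clm_apply continuous_id
  have hcg : Continuous fun x : E => fderiv ℝ (gsq v) x x := by
    have : Continuous (fderiv ℝ (gsq v)) := (contDiff_gsq hv).continuous_fderiv (by norm_num)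
    exact this.clm_apply continuous_id
  have j1 : Integrable (fun x => gsq v x * bw r x ^ 3) :=
    int_bw (continuous_gsq hv1) r (by norm_num)
  have j2 : Integrable (fun x => fderiv ℝ (gsq v) x x * bw r x ^ 3) := int_bw hcg r (by norm_num)
  have j3 : Integrable (fun x => fderiv ℝ v x x * lap v x * bw r x ^ 3) :=
    int_bw (hcf.mul (continuous_lap hv)) r (by norm_num)
  have j4 : Integrable (fun x => G x * bw r x ^ 3) := int_bw hG.continuous r (by norm_num)
  have j5 : Integrable (fun x => ‖x‖ ^ 2 * G x * bw r x ^ 2) :=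
    int_bw ((continuous_norm.pow 2).mul hG.continuous) r (by norm_num)
  have k1 : ∫ x, (gsq v x + fderiv ℝ (gsq v) x x / 2 + fderiv ℝ v x x * lap v x) * bw r x ^ 3 =
      (∫ x, gsq v x * bw r x ^ 3) + 1 / 2 * (∫ x, fderiv ℝ (gsq v) x x * bw r x ^ 3) +
        ∫ x, fderiv ℝ v x x * lap v x * bw r x ^ 3 := by
    have j12 : Integrable (fun x => gsq v x * bw r x ^ 3 +
        1 / 2 * (fderiv ℝ (gsq v) x x * bw r x ^ 3)) := j1.add (j2.const_mul (1 / 2))
    rw [← integral_const_mul, ← integral_add j1 (j2.const_mul (1 / 2)), ← integral_add j12 j3]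
    refine integral_congr_ae (Eventually.of_forall fun x => ?_)
    beta_reduce; ring
  have k2 : ∫ x, (3 * G x + fderiv ℝ v x x * lap v x) * bw r x ^ 3 =
      3 * (∫ x, G x * bw r x ^ 3) + ∫ x, fderiv ℝ v x x * lap v x * bw r x ^ 3 := by
    rw [← integral_const_mul, ← integral_add (j4.const_mul 3) j3]
    refine integral_congr_ae (Eventually.of_forall fun x => ?_)
    beta_reduce; ring
  have k3 : E2 G r = 6 * (∫ x, G x * bw r x ^ 3) - 12 * ∫ x, ‖x‖ ^ 2 * G x * bw r x ^ 2 := by
    unfold E2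
    rw [← integral_const_mul, ← integral_const_mul,
      ← integral_sub (j4.const_mul 6) (j5.const_mul 12)]
    refine integral_congr_ae (Eventually.of_forall fun x => ?_)
    beta_reduce; ring
  rw [k1] at h1
  rw [k2] at h2
  rw [k3]
  linarith

theorem proof : FQA_stmt := by
  intro v κ r hv _
  exact ⟨first κ r hv, second r, fun G hG hGp => third r hv hG hGp⟩

end Pool.Agent.Helper87.HS3.FQA
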