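import Pool.Agent.Helper35.HS3.GoalsA

/-!
For MP_66e6f4_an, project HS3 of helper35, packet HPB: integration by parts on half-spaces.
-/

namespace Pool.Agent.Helper87.HS3.HPB

open MeasureTheory Set Filter Topology Metric
open scoped ContDiff
open Pool.Agent.Helper35.HS3

/-- The derivative of the smooth transition. -/
noncomputable def th (s : ℝ) : ℝ := deriv Real.smoothTransition s

theorem cd_st : ContDiff ℝ 1 Real.smoothTransition := Real.smoothTransition.contDiff (n := 1)

theorem hasDerivAt_st (s : ℝ) : HasDerivAt Real.smoothTransition (th s) s :=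
  (cd_st.differentiable (by norm_num) s).hasDerivAt

theorem continuous_th : Continuous th := cd_st.continuous_deriv (by norm_num)

theorem th_nonneg (s : ℝ) : 0 ≤ th s := Real.smoothTransition.monotone.deriv_nonneg

theorem th_zero {s : ℝ} (hs : s ≤ 0 ∨ 1 ≤ s) : th s = 0 := by
  rcases hs with hs | hs
  · apply IsLocalMin.deriv_eq_zero
    refine Eventually.of_forall fun y => ?_
    rw [Real.smoothTransition.zero_of_nonpos hs]
    exact Real.smoothTransition.nonneg y
  · apply IsLocalMax.deriv_eq_zero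
    refine Eventually.of_forall fun y => ?_
    rw [Real.smoothTransition.one_of_one_le hs]
    exact Real.smoothTransition.le_one y

theorem th_bound : ∃ B : ℝ, 0 ≤ B ∧ ∀ s, th s ≤ B := by
  have hcs : HasCompactSupport th := by
    refine HasCompactSupport.intro (isCompact_Icc (a := (0 : ℝ)) (b := 1)) fun s hs => ?_
    rw [mem_Icc, not_and_or, not_le, not_le] at hs
    exact th_zero (hs.imp le_of_lt le_of_lt)
  obtain ⟨B, hB⟩ := hcs.exists_bound_of_continuous continuous_th
  refine ⟨B, (norm_nonneg _).trans (hB 0), fun s => (le_abs_self _).trans (hB s)⟩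

/-- The slab estimate. -/
theorem slab_estimate {B : ℝ} (hB0 : 0 ≤ B) (hB : ∀ s, th s ≤ B) {τ : ℝ} (hτ : τ = 1 ∨ τ = -1)
    {h : E → ℝ} {C R : ℝ} (hC : 0 ≤ C) (hR : 0 ≤ R) (h1 : ∀ x, h x ≤ C * |x 0|)
    (h2 : ∀ x, R ≤ ‖x‖ → h x = 0) {n : ℝ} (hn : 0 < n) :
    ∫ x, h x * (n * th (n * (τ * x 0))) ≤ 4 * B * C * R ^ 2 * n⁻¹ := by
  set S : Set E := {x : E | ‖x‖ < R ∧ 0 < τ * x 0 ∧ τ * x 0 < n⁻¹} with hS
  have hSm : MeasurableSet S := by
    have c0 : Continuous fun x : E => τ * x 0 := by fun_prop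
    exact ((isOpen_lt continuous_norm continuous_const).inter
      ((isOpen_lt continuous_const c0).inter (isOpen_lt c0 continuous_const))).measurableSet
  have hvol := vol_slab hτ hR (inv_nonneg.2 hn.le)
  have hfin : volume S ≠ ⊤ := by
    refine ne_top_of_le_ne_top (measure_ball_lt_top (x := (0 : E)) (r := R)).ne
      (measure_mono fun x hx => ?_)
    simpa using hx.1
  have hSi : Integrable (S.indicator fun _ : E => C * B) := by
    rw [integrable_indicator_iff hSm]
    exact integrableOn_const hfin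
  have hpt : ∀ x, h x * (n * th (n * (τ * x 0))) ≤ S.indicator (fun _ : E => C * B) x := by
    intro x
    by_cases hx : x ∈ S
    · rw [indicator_of_mem hx]
      obtain ⟨-, hx1, hx2⟩ := hx
      have habs : |x 0| = τ * x 0 := by
        rcases hτ with rfl | rfl
        · rw [one_mul] at hx1 ⊢; exact abs_of_pos hx1
        · rw [abs_of_neg (by linarith)]; ring
      have hth := th_nonneg (n * (τ * x 0))
      have hnt : 0 ≤ n * th (n * (τ * x 0)) := by positivity
      have a1 : h x ≤ C * n⁻¹ := (h1 x).trans (by rw [habs]; gcongr)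
      calc h x * (n * th (n * (τ * x 0))) ≤ (C * n⁻¹) * (n * th (n * (τ * x 0))) :=
            mul_le_mul_of_nonneg_right a1 hnt
        _ = C * th (n * (τ * x 0)) := by field_simp
        _ ≤ C * B := mul_le_mul_of_nonneg_left (hB _) hC
    · rw [indicator_of_notMem hx]
      by_cases hxR : R ≤ ‖x‖
      · rw [h2 x hxR, zero_mul]
      · have : n * (τ * x 0) ≤ 0 ∨ 1 ≤ n * (τ * x 0) := by
          by_contra hcon
          push Not at hcon
          apply hx
          refine ⟨not_le.1 hxR, ?_, ?_⟩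
          · exact pos_of_mul_pos_right hcon.1 hn.le
          · rw [lt_inv_comm₀ _ hn]
            · rw [← one_div, lt_div_iff₀ (pos_of_mul_pos_right hcon.1 hn.le)]
              exact hcon.2
            · exact pos_of_mul_pos_right hcon.1 hn.le
        rw [th_zero this]; simp
  have hint : ∫ x, S.indicator (fun _ : E => C * B) x = C * B * volume.real S := by
    rw [integral_indicator hSm, setIntegral_const, smul_eq_mul, mul_comm]
  have hle : ∫ x, h x * (n * th (n * (τ * x 0))) ≤ C * B * volume.real S := by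
    rw [← hint]
    by_cases hi : Integrable (fun x => h x * (n * th (n * (τ * x 0))))
    · exact integral_mono hi hSi hpt
    · rw [integral_undef hi]
      exact integral_nonneg fun x => indicator_nonneg (fun _ _ => by positivity) x
  refine hle.trans ?_
  calc C * B * volume.real S ≤ C * B * (4 * n⁻¹ * R ^ 2) := by gcongr
    _ = _ := by ring

/-- Integration by parts with the cut-off. -/
theorem ibp (τ n : ℝ) (j : Fin 3) {φ : E → ℝ} (h1 : ContDiff ℝ 1 φ) (h2 : HasCompactSupport φ) :
    ∫ x, Real.smoothTransition (n * (τ * x 0)) * pd j φ x =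
      - ∫ x, φ x * ((n * th (n * (τ * x 0))) * (τ * if (0 : Fin 3) = j then 1 else 0)) := by
  have hη : ContDiff ℝ 1 fun x : E => Real.smoothTransition (n * (τ * x 0)) :=
    cd_st.comp (contDiff_const.mul (contDiff_const.mul (contDiff_coord 0)))
  have hpd : ∀ x : E, pd j (fun x : E => Real.smoothTransition (n * (τ * x 0))) x =
      (n * th (n * (τ * x 0))) * (τ * if (0 : Fin 3) = j then 1 else 0) := by
    intro x
    have d0 : DifferentiableAt ℝ (fun y : E => y 0) x := diff_of_one (contDiff_coord 0) x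
    have d1 : DifferentiableAt ℝ (fun y : E => τ * y 0) x := d0.const_mul τ
    rw [pd_comp (H := Real.smoothTransition) (u := fun x : E => n * (τ * x 0))
      (hasDerivAt_st _) (d1.const_mul n), pd_const_mul n d1, pd_const_mul τ d0, pd_coord]
    ring
  have h := integral_mul_pd j h1 h2 hη
  simp only [hpd] at h
  rw [h, neg_neg]

/-- The limit. -/
theorem lim {τ : ℝ} (_hτ : τ = 1 ∨ τ = -1) (j : Fin 3) {φ : E → ℝ} (h1 : ContDiff ℝ 1 φ)
    (h2 : HasCompactSupport φ) :
    Tendsto (fun n : ℕ => ∫ x, Real.smoothTransition (((n : ℝ) + 1) * (τ * x 0)) * pd j φ x) atTop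
      (𝓝 (∫ x in Hs τ, pd j φ x)) := by
  rw [← integral_indicator (measurableSet_Hs τ)]
  have hi : Integrable (fun x => pd j φ x) :=
    (continuous_pd h1).integrable_of_hasCompactSupport (hasCompactSupport_pd j h2)
  refine tendsto_integral_of_dominated_convergence (fun x => |pd j φ x|) ?_ hi.abs ?_ ?_
  · intro n
    have : Continuous fun x : E => Real.smoothTransition (((n : ℝ) + 1) * (τ * x 0)) * pd j φ x := by
      have c1 : Continuous fun x : E => Real.smoothTransition (((n : ℝ) + 1) * (τ * x 0)) :=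
        Real.smoothTransition.continuous.comp (by fun_prop)
      exact c1.mul (continuous_pd h1)
    exact this.aestronglyMeasurable
  · intro n
    refine Eventually.of_forall fun x => ?_
    rw [Real.norm_eq_abs, abs_mul, abs_of_nonneg (Real.smoothTransition.nonneg _)]
    exact mul_le_of_le_one_left (abs_nonneg _) (Real.smoothTransition.le_one _)
  · refine Eventually.of_forall fun x => ?_
    by_cases hx : x ∈ Hs τ
    · rw [indicator_of_mem hx]
      have hx' : 0 < τ * x 0 := hx
      refine tendsto_const_nhds.congr' ?_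
      have ht : Tendsto (fun n : ℕ => ((n : ℝ) + 1) * (τ * x 0)) atTop atTop :=
        ((tendsto_natCast_atTop_atTop (R := ℝ)).atTop_add tendsto_const_nhds).atTop_mul_const hx'
      filter_upwards [ht.eventually_ge_atTop 1] with n hn
      rw [Real.smoothTransition.one_of_one_le hn, one_mul]
    · rw [indicator_of_notMem hx]
      have hx' : τ * x 0 ≤ 0 := not_lt.1 hx
      refine tendsto_const_nhds.congr' (Eventually.of_forall fun n => ?_)
      have hn : (0 : ℝ) ≤ (n : ℝ) + 1 := by positivity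
      beta_reduce
      rw [Real.smoothTransition.zero_of_nonpos
        (mul_nonpos_of_nonneg_of_nonpos hn hx'), zero_mul]

theorem lim_inv (K : ℝ) : Tendsto (fun n : ℕ => K * ((n : ℝ) + 1)⁻¹) atTop (𝓝 0) := by
  have := (tendsto_one_div_add_atTop_nhds_zero_nat (𝕜 := ℝ)).const_mul K
  simpa [one_div] using this

theorem supp_radius {φ : E → ℝ} (h2 : HasCompactSupport φ) :
    ∃ R : ℝ, 0 ≤ R ∧ ∀ x, R ≤ ‖x‖ → φ x = 0 := by
  obtain ⟨R, hR⟩ := h2.isCompact.isBounded.subset_closedBall (0 : E)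
  refine ⟨max 0 R + 1, by positivity, fun x hx => ?_⟩
  by_contra hne
  have : x ∈ closedBall (0 : E) R := hR (subset_tsupport φ hne)
  rw [mem_closedBall, dist_zero_right] at this
  have := le_max_right 0 R
  linarith

/-- The projection to the plane `x₀ = 0`. -/
noncomputable def pr (x : E) : E := x - (x 0) • bv 0

theorem pr_zero (x : E) : pr x 0 = 0 := by simp [pr]

theorem norm_sub_pr (x : E) : ‖x - pr x‖ = |x 0| := by
  have : x - pr x = (x 0) • bv 0 := by simp [pr]
  rw [this, norm_smul, norm_bv, mul_one, Real.norm_eq_abs]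

theorem norm_refl_sub_pr (x : E) : ‖refl x - pr x‖ = |x 0| := by
  have : refl x - pr x = (-x 0) • bv 0 := by
    simp only [Pool.Agent.Helper35.HS3.refl, pr]; module
  rw [this, norm_smul, norm_bv, mul_one, Real.norm_eq_abs, abs_neg]

theorem part1 {τ : ℝ} (hτ : τ = 1 ∨ τ = -1) {φ : E → ℝ} (h1 : ContDiff ℝ 1 φ)
    (h2 : HasCompactSupport φ) (h3 : ∀ x : E, x 0 = 0 → φ x = 0) :
    ∫ x in Hs τ, pd 0 φ x = 0 := by
  obtain ⟨B, hB0, hB⟩ := th_bound
  obtain ⟨R, hR0, hR⟩ := supp_radius h2
  obtain ⟨C, hC⟩ := h1.lipschitzWith_of_hasCompactSupport h2 (by norm_num)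
  have hφ : ∀ x, |φ x| ≤ C * |x 0| := by
    intro x
    have := hC.norm_sub_le x (pr x)
    rwa [h3 _ (pr_zero x), sub_zero, norm_sub_pr, Real.norm_eq_abs] at this
  have key : Tendsto (fun n : ℕ => ∫ x, Real.smoothTransition (((n : ℝ) + 1) * (τ * x 0)) *
      pd 0 φ x) atTop (𝓝 0) := by
    refine squeeze_zero_norm (a := fun n : ℕ => (4 * B * C * R ^ 2) * ((n : ℝ) + 1)⁻¹)
      (fun n => ?_) (lim_inv _)
    rw [ibp τ _ 0 h1 h2]
    simp only [if_true, mul_one]
    have e : ∫ x, φ x * (((n : ℝ) + 1) * th (((n : ℝ) + 1) * (τ * x 0)) * τ) =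
        τ * ∫ x, φ x * (((n : ℝ) + 1) * th (((n : ℝ) + 1) * (τ * x 0))) := by
      rw [← integral_const_mul]
      refine integral_congr_ae (Eventually.of_forall fun x => ?_)
      beta_reduce
      ring
    have ht1 : |τ| = 1 := by rcases hτ with rfl | rfl <;> simp
    rw [e, norm_neg, norm_mul, Real.norm_eq_abs τ, ht1, one_mul, Real.norm_eq_abs, abs_le]
    have s1 := slab_estimate hB0 hB hτ C.coe_nonneg hR0 (fun x => (le_abs_self _).trans (hφ x)) hR
      (n := (n : ℝ) + 1) (by positivity)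
    have s2 := slab_estimate hB0 hB hτ (h := fun x => - φ x) C.coe_nonneg hR0
      (fun x => (neg_le_abs _).trans (hφ x)) (fun x hx => by rw [hR x hx, neg_zero])
      (n := (n : ℝ) + 1) (by positivity)
    have e2 : ∫ x, - φ x * (((n : ℝ) + 1) * th (((n : ℝ) + 1) * (τ * x 0))) =
        - ∫ x, φ x * (((n : ℝ) + 1) * th (((n : ℝ) + 1) * (τ * x 0))) := by
      rw [← integral_neg]
      refine integral_congr_ae (Eventually.of_forall fun x => ?_)
      beta_reduce
      ring
    rw [e2] at s2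
    exact ⟨by linarith, s1⟩
  exact tendsto_nhds_unique (lim hτ 0 h1 h2) key

theorem part2 {τ : ℝ} (hτ : τ = 1 ∨ τ = -1) {j : Fin 3} (hj : j ≠ 0) {φ : E → ℝ}
    (h1 : ContDiff ℝ 1 φ) (h2 : HasCompactSupport φ) : ∫ x in Hs τ, pd j φ x = 0 := by
  refine tendsto_nhds_unique (lim hτ j h1 h2) ?_
  refine tendsto_const_nhds.congr' (Eventually.of_forall fun n => ?_)
  beta_reduce
  rw [ibp τ _ j h1 h2]
  simp [hj.symm]

theorem part3 {φ ψ : E → ℝ} (h1 : ContDiff ℝ 1 φ) (h2 : HasCompactSupport φ)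
    (h3 : ContDiff ℝ 1 ψ) (h4 : HasCompactSupport ψ) (h5 : ∀ x : E, x 0 = 0 → ψ x ≤ φ x) :
    (∫ x in Hs 1, pd 0 φ x) + (∫ x in Hs (-1), pd 0 ψ x) ≤ 0 := by
  obtain ⟨B, hB0, hB⟩ := th_bound
  obtain ⟨R1, hR10, hR1⟩ := supp_radius h2
  obtain ⟨R2, hR20, hR2⟩ := supp_radius h4
  obtain ⟨C1, hC1⟩ := h1.lipschitzWith_of_hasCompactSupport h2 (by norm_num)
  obtain ⟨C2, hC2⟩ := h3.lipschitzWith_of_hasCompactSupport h4 (by norm_num)
  have hle : ∀ x, ψ (refl x) - φ x ≤ (C1 + C2 : ℝ) * |x 0| := by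
    intro x
    have a1 := hC1.norm_sub_le x (pr x)
    have a2 := hC2.norm_sub_le (refl x) (pr x)
    rw [norm_sub_pr, Real.norm_eq_abs] at a1
    rw [norm_refl_sub_pr, Real.norm_eq_abs] at a2
    have a3 := h5 _ (pr_zero x)
    have a4 := (abs_le.1 a1).1
    have a5 := (abs_le.1 a2).2
    linarith
  have hsupp : ∀ x : E, max R1 R2 ≤ ‖x‖ → ψ (refl x) - φ x = 0 := by
    intro x hx
    rw [hR1 x ((le_max_left _ _).trans hx), hR2 (refl x) (by
      rw [norm_refl]; exact (le_max_right _ _).trans hx), sub_zero]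
  refine le_of_tendsto_of_tendsto' ((lim (Or.inl rfl) 0 h1 h2).add (lim (Or.inr rfl) 0 h3 h4))
    (lim_inv (4 * B * (C1 + C2) * (max R1 R2) ^ 2)) fun n => ?_
  rw [ibp 1 _ 0 h1 h2, ibp (-1) _ 0 h3 h4]
  have hn : (0 : ℝ) < (n : ℝ) + 1 := by positivity
  have cth : Continuous fun x : E => ((n : ℝ) + 1) * th (((n : ℝ) + 1) * (1 * x 0)) :=
    continuous_const.mul (continuous_th.comp (by fun_prop))
  have e1 : ∫ x, φ x * (((n : ℝ) + 1) * th (((n : ℝ) + 1) * (1 * x 0)) *
      (1 * if (0 : Fin 3) = 0 then 1 else 0)) =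
      ∫ x, φ x * (((n : ℝ) + 1) * th (((n : ℝ) + 1) * (1 * x 0))) := by
    simp
  have e2 : ∫ x, ψ x * (((n : ℝ) + 1) * th (((n : ℝ) + 1) * (-1 * x 0)) *
      (-1 * if (0 : Fin 3) = 0 then 1 else 0)) =
      - ∫ x, ψ (refl x) * (((n : ℝ) + 1) * th (((n : ℝ) + 1) * (1 * x 0))) := by
    rw [← integral_refl, ← integral_neg]
    refine integral_congr_ae (Eventually.of_forall fun x => ?_)
    beta_reduce
    rw [refl_zero, if_pos rfl]
    have : -1 * -x 0 = 1 * x 0 := by ring
    rw [this]
    ring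
  rw [e1, e2, neg_neg]
  have i1 : Integrable fun x => φ x * (((n : ℝ) + 1) * th (((n : ℝ) + 1) * (1 * x 0))) :=
    (h1.continuous.mul cth).integrable_of_hasCompactSupport h2.mul_right
  have i2 : Integrable fun x => ψ (refl x) * (((n : ℝ) + 1) * th (((n : ℝ) + 1) * (1 * x 0))) := by
    refine ((h3.continuous.comp continuous_refl).mul cth).integrable_of_hasCompactSupport ?_
    refine HasCompactSupport.intro (isCompact_closedBall (0 : E) R2) fun x hx => ?_
    rw [mem_closedBall, dist_zero_right, not_le] at hx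
    change ψ (refl x) * _ = 0
    rw [hR2 (refl x) (by rw [norm_refl]; exact hx.le), zero_mul]
  have e3 : (- ∫ x, φ x * (((n : ℝ) + 1) * th (((n : ℝ) + 1) * (1 * x 0)))) +
      ∫ x, ψ (refl x) * (((n : ℝ) + 1) * th (((n : ℝ) + 1) * (1 * x 0))) =
      ∫ x, (ψ (refl x) - φ x) * (((n : ℝ) + 1) * th (((n : ℝ) + 1) * (1 * x 0))) := by
    rw [neg_add_eq_sub, ← integral_sub i2 i1]
    refine integral_congr_ae (Eventually.of_forall fun x => ?_)
    beta_reduce
    ring
  rw [e3]
  exact slab_estimate hB0 hB (Or.inl rfl) (add_nonneg C1.coe_nonneg C2.coe_nonneg) (le_max_of_le_left hR10) hle hsupp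
    hn

theorem proof : HPB_stmt := by
  refine ⟨fun τ j φ hτ h1 h2 h3 => ?_, fun φ ψ h1 h2 h3 h4 h5 => part3 h1 h2 h3 h4 h5⟩
  by_cases hj : j = 0
  · subst hj
    exact part1 hτ h1 h2 (h3.resolve_left fun h => h rfl)
  · exact part2 hτ hj h1 h2

end Pool.Agent.Helper87.HS3.HPB
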