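import Pool.Agent.Helper35.HS3.GoalsB

/-!
For MP_66e6f4_an, project HS3 of helper35, packet STR: the balance of the slopes.
-/

namespace Pool.Agent.Helper87.HS3.STR

open MeasureTheory Set Filter Topology Metric
open scoped ContDiff
open Pool.Agent.Helper35.HS3

/-- The weight of the packet. -/
noncomputable def ze (R : ℝ) (x : E) : ℝ := (fun y => kk y ^ 2) (0 + R⁻¹ • x)

theorem ze_cd (R : ℝ) : ContDiff ℝ 1 (ze R) := contDiff_scale contDiff_kk_sq 0 R⁻¹

theorem pd_ze (R : ℝ) (i : Fin 3) (x : E) :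
    pd i (ze R) x = -(4 * (R⁻¹ * x i) * kk (R⁻¹ • x)) * R⁻¹ := by
  unfold ze
  rw [pd_scale i contDiff_kk_sq, pd_kk_sq, zero_add]
  simp only [PiLp.smul_apply, smul_eq_mul]
  ring

theorem kk_far {R : ℝ} (hR : 0 < R) {x : E} (hx : x ∉ ball (0 : E) R) : kk (R⁻¹ • x) = 0 := by
  apply kk_eq_zero
  rw [mem_ball, dist_zero_right, not_lt] at hx
  rw [norm_smul, norm_inv, Real.norm_eq_abs, abs_of_pos hR, inv_mul_eq_div, le_div_iff₀ hR]
  linarith

theorem ze_cs {R : ℝ} (hR : 0 < R) : HasCompactSupport (ze R) := by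
  refine HasCompactSupport.intro (isCompact_closedBall (0 : E) R) fun x hx => ?_
  have hx' : x ∉ ball (0 : E) R := fun h => hx (ball_subset_closedBall h)
  simp only [ze, zero_add]
  rw [kk_far hR hx']; norm_num

theorem pd_ze_far {R : ℝ} (hR : 0 < R) (i : Fin 3) {x : E} (hx : x ∉ ball (0 : E) R) :
    pd i (ze R) x = 0 := by
  rw [pd_ze, kk_far hR hx]; ring

theorem pd_ze_bound {R : ℝ} (hR : 0 < R) (i : Fin 3) (x : E) : |pd i (ze R) x| ≤ 4 * R⁻¹ := by
  by_cases hx : x ∈ ball (0 : E) R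
  · have hx' : ‖x‖ < R := by simpa using hx
    have h1 : |R⁻¹ * x i| ≤ 1 := by
      rw [abs_mul, abs_of_pos (inv_pos.2 hR), inv_mul_le_iff₀ hR, mul_one]
      exact (abs_coord_le x i).trans hx'.le
    have h2 : |kk (R⁻¹ • x)| ≤ 1 := by
      rw [abs_of_nonneg (kk_nonneg _)]; exact kk_le_one _
    rw [pd_ze, abs_mul, abs_neg, abs_mul, abs_mul, abs_of_pos (inv_pos.2 hR)]
    have h3 : |(4 : ℝ)| = 4 := by norm_num
    rw [h3]
    have h4 : |R⁻¹ * x i| * |kk (R⁻¹ • x)| ≤ 1 * 1 :=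
      mul_le_mul h1 h2 (abs_nonneg _) zero_le_one
    have h5 : 0 < R⁻¹ := inv_pos.2 hR
    nlinarith
  · rw [pd_ze_far hR i hx, abs_zero]
    positivity

theorem alg {γ q0 q1 q2 b0 b1 b2 F s η : ℝ} (hη : 0 < η) (hb0 : |b0| ≤ s)
    (hb1 : |b1| ≤ s) (hb2 : |b2| ≤ s) :
    F * b0 - γ ^ 2 / 2 * b0 - s * ((5 / 2 + γ ^ 2 / (4 * η)) * (q0 ^ 2 + q1 ^ 2 + q2 ^ 2) + 3 * η) ≤
      (((γ + q0) ^ 2 + q1 ^ 2 + q2 ^ 2) / 2 + F) * b0 -
        (γ + q0) * ((γ + q0) * b0 + q1 * b1 + q2 * b2) := by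
  have hs : 0 ≤ s := (abs_nonneg _).trans hb0
  have key : ∀ q b : ℝ, |b| ≤ s → γ * (q * b) ≤ s * (γ ^ 2 / (4 * η) * q ^ 2 + η) := by
    intro q b hb
    have e1 : |γ * q| ≤ γ ^ 2 / (4 * η) * q ^ 2 + η := by
      have h4 : 0 < 4 * η := by positivity
      have : γ ^ 2 / (4 * η) * q ^ 2 = (γ * q) ^ 2 / (4 * η) := by ring
      rw [this, ← sub_le_iff_le_add, le_div_iff₀ h4]
      have h5 : |γ * q| ^ 2 = (γ * q) ^ 2 := sq_abs _
      nlinarith [sq_nonneg (|γ * q| - 2 * η)]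
    have e2 : γ * (q * b) ≤ |γ * q| * |b| := by
      rw [← mul_assoc, ← abs_mul]; exact le_abs_self _
    have e3 : |γ * q| * |b| ≤ |γ * q| * s := mul_le_mul_of_nonneg_left hb (abs_nonneg _)
    have e4 : |γ * q| * s ≤ (γ ^ 2 / (4 * η) * q ^ 2 + η) * s := mul_le_mul_of_nonneg_right e1 hs
    linarith
  have key2 : ∀ q b : ℝ, |b| ≤ s → q0 * (q * b) ≤ s * ((q0 ^ 2 + q ^ 2) / 2) := by
    intro q b hb
    have e1 : |q0 * q| ≤ (q0 ^ 2 + q ^ 2) / 2 := by
      rw [abs_mul]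
      nlinarith [sq_nonneg (|q0| - |q|), sq_abs q0, sq_abs q]
    have e2 : q0 * (q * b) ≤ |q0 * q| * |b| := by
      rw [← mul_assoc, ← abs_mul]; exact le_abs_self _
    have e3 : |q0 * q| * |b| ≤ |q0 * q| * s := mul_le_mul_of_nonneg_left hb (abs_nonneg _)
    have e4 : |q0 * q| * s ≤ ((q0 ^ 2 + q ^ 2) / 2) * s := mul_le_mul_of_nonneg_right e1 hs
    linarith
  have k0 := key q0 b0 hb0
  have k1 := key q1 b1 hb1
  have k2 := key q2 b2 hb2
  have l0 := key2 q0 b0 hb0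
  have l1 := key2 q1 b1 hb1
  have l2 := key2 q2 b2 hb2
  have m0 : -(s * ((q0 ^ 2 + q1 ^ 2 + q2 ^ 2) / 2)) ≤ (q0 ^ 2 + q1 ^ 2 + q2 ^ 2) / 2 * b0 := by
    have h1 : -s ≤ b0 := (abs_le.1 hb0).1
    have h2 : 0 ≤ (q0 ^ 2 + q1 ^ 2 + q2 ^ 2) / 2 := by positivity
    nlinarith
  have t1 : 0 ≤ s * q1 ^ 2 := by positivity
  have t2 : 0 ≤ s * q2 ^ 2 := by positivity
  have e : (((γ + q0) ^ 2 + q1 ^ 2 + q2 ^ 2) / 2 + F) * b0 -
        (γ + q0) * ((γ + q0) * b0 + q1 * b1 + q2 * b2) =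
      F * b0 - γ ^ 2 / 2 * b0 + (q0 ^ 2 + q1 ^ 2 + q2 ^ 2) / 2 * b0 -
        (γ * (q0 * b0) + γ * (q1 * b1) + γ * (q2 * b2)) -
        (q0 * (q0 * b0) + q0 * (q1 * b1) + q0 * (q2 * b2)) := by ring
  rw [e]
  have e2 : s * ((5 / 2 + γ ^ 2 / (4 * η)) * (q0 ^ 2 + q1 ^ 2 + q2 ^ 2) + 3 * η) =
      s * (γ ^ 2 / (4 * η) * q0 ^ 2 + η) + s * (γ ^ 2 / (4 * η) * q1 ^ 2 + η) +
      s * (γ ^ 2 / (4 * η) * q2 ^ 2 + η) + s * (5 / 2 * (q0 ^ 2 + q1 ^ 2 + q2 ^ 2)) := by ring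
  rw [e2]
  linarith

/-- The first moment of the weight on a half-space. -/
noncomputable def m1 : ℝ := ∫ x in Hs 1, 4 * x 0 * kk x

theorem m1_pos : 0 < m1 := by
  unfold m1
  have hc : Continuous fun x : E => 4 * x 0 * kk x := by
    have := continuous_kk; fun_prop
  have hcs : HasCompactSupport fun x : E => 4 * x 0 * kk x := hasCompactSupport_kk.mul_left
  have hi : Integrable fun x : E => 4 * x 0 * kk x := hc.integrable_of_hasCompactSupport hcs
  rw [setIntegral_pos_iff_support_of_nonneg_ae _ hi.integrableOn]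
  · have hsub : Hs 1 ∩ ball (0 : E) 1 ⊆ Function.support (fun x : E => 4 * x 0 * kk x) ∩ Hs 1 := by
      rintro x ⟨hx1, hx2⟩
      refine ⟨?_, hx1⟩
      have h1 : 0 < 1 * x 0 := hx1
      have h2 : ‖x‖ < 1 := by simpa using hx2
      have h3 : 0 < kk x := by
        unfold kk
        refine lt_max_of_lt_right ?_
        nlinarith [norm_nonneg x]
      rw [Function.mem_support]
      have : 0 < x 0 := by linarith
      positivity
    refine lt_of_lt_of_le ?_ (measure_mono hsub)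
    refine ((isOpen_Hs 1).inter isOpen_ball).measure_pos volume ⟨(1 / 2 : ℝ) • bv 0, ?_, ?_⟩
    · simp [Hs]
    · rw [mem_ball, dist_zero_right, norm_smul, norm_bv]
      norm_num
  · rw [EventuallyLE, ae_restrict_iff' (measurableSet_Hs 1)]
    refine Eventually.of_forall fun x hx => ?_
    have h1 : 0 < 1 * x 0 := hx
    have h3 := kk_nonneg x
    have : 0 < x 0 := by linarith
    simp only [Pi.zero_apply]
    positivity

theorem int_b0 {R : ℝ} (hR : 0 < R) : ∫ x in Hs 1, pd 0 (ze R) x = -(R ^ 2 * m1) := by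
  have h : ∫ x in Hs 1, pd 0 (ze R) x = -R⁻¹ * ∫ x in Hs 1, 4 * (R⁻¹ * x 0) * kk (R⁻¹ • x) := by
    rw [← integral_const_mul]
    refine integral_congr_ae (Eventually.of_forall fun x => ?_)
    beta_reduce
    rw [pd_ze]; ring
  have h2 : ∫ x in Hs 1, 4 * (R⁻¹ * x 0) * kk (R⁻¹ • x) = R ^ 3 * m1 := by
    unfold m1
    rw [← integral_indicator (measurableSet_Hs 1), ← integral_indicator (measurableSet_Hs 1)]
    have h3 := integral_scale ((Hs 1).indicator fun x : E => 4 * x 0 * kk x) 0 (inv_pos.2 hR)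
    have e : ∀ y : E, (Hs 1).indicator (fun x : E => 4 * x 0 * kk x) (0 + R⁻¹ • y) =
        (Hs 1).indicator (fun x : E => 4 * (R⁻¹ * x 0) * kk (R⁻¹ • x)) y := by
      intro y
      rw [zero_add]
      have hiff : R⁻¹ • y ∈ Hs 1 ↔ y ∈ Hs 1 := by
        simp only [Hs, mem_ofPred_eq, PiLp.smul_apply, smul_eq_mul, one_mul]
        exact mul_pos_iff_of_pos_left (inv_pos.2 hR)
      by_cases hy : y ∈ Hs 1
      · rw [indicator_of_mem hy, indicator_of_mem (hiff.2 hy)]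
        simp
      · rw [indicator_of_notMem hy, indicator_of_notMem (fun h => hy (hiff.1 h))]
    simp only [e] at h3
    rw [h3]
    congr 1
    rw [inv_pow, inv_inv]
  rw [h, h2]
  field_simp

theorem int_b0' {R : ℝ} (hR : 0 < R) : ∫ x in Hs (-1), pd 0 (ze R) x = R ^ 2 * m1 := by
  have h := integral_refl_Hs 1 (pd 0 (ze R))
  rw [← h]
  have e : ∀ x, pd 0 (ze R) (refl x) = - pd 0 (ze R) x := by
    intro x
    have : kk (R⁻¹ • Pool.Agent.Helper35.HS3.refl x) = kk (R⁻¹ • x) := by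
      have e1 : R⁻¹ • Pool.Agent.Helper35.HS3.refl x = Pool.Agent.Helper35.HS3.refl (R⁻¹ • x) := by
        change R⁻¹ • reflL x = reflL (R⁻¹ • x)
        rw [map_smul]
      rw [e1, kk_refl]
    rw [pd_ze, pd_ze, refl_zero, this]
    ring
  simp only [e]
  rw [integral_neg, int_b0 hR, neg_neg]

/-- One half-space. -/
theorem half {τ W s C η R : ℝ} {G b g : E → ℝ} (hη : 0 ≤ η) (hs : 0 ≤ s) (hR : 0 < R)
    (hGc : Continuous G) (hbc : Continuous b) (hgc : Continuous g)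
    (hG0 : ∀ x, x ∉ ball (0 : E) R → G x = 0) (hb0 : ∀ x, x ∉ ball (0 : E) R → b x = 0)
    (hpt : ∀ x ∈ Hs τ, W * b x - s * (C * g x + 3 * η) ≤ G x) :
    W * (∫ x in Hs τ, b x) - s * C * (∫ x in Hs τ ∩ ball 0 R, g x) - 3 * s * η * (v1 * R ^ 3) ≤
      ∫ x in Hs τ, G x := by
  have hm : MeasurableSet (Hs τ ∩ ball (0 : E) R) := (measurableSet_Hs τ).inter measurableSet_ball
  have e1 : ∫ x in Hs τ, G x = ∫ x in Hs τ ∩ ball (0 : E) R, G x :=
    setIntegral_eq_of_subset_of_forall_sdiff_eq_zero (measurableSet_Hs τ) inter_subset_left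
      fun x hx => hG0 x fun h => hx.2 ⟨hx.1, h⟩
  have e2 : ∫ x in Hs τ, b x = ∫ x in Hs τ ∩ ball (0 : E) R, b x :=
    setIntegral_eq_of_subset_of_forall_sdiff_eq_zero (measurableSet_Hs τ) inter_subset_left
      fun x hx => hb0 x fun h => hx.2 ⟨hx.1, h⟩
  have iG := integrableOn_Hs_ball hGc τ R
  have ib := integrableOn_Hs_ball hbc τ R
  have ig := integrableOn_Hs_ball hgc τ R
  have hfin : volume (Hs τ ∩ ball (0 : E) R) ≠ ⊤ :=
    ne_top_of_le_ne_top (measure_ball_lt_top (x := (0 : E)) (r := R)).ne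
      (measure_mono inter_subset_right)
  have ic : IntegrableOn (fun _ : E => 3 * s * η) (Hs τ ∩ ball (0 : E) R) :=
    integrableOn_const hfin
  have hvol : volume.real (Hs τ ∩ ball (0 : E) R) ≤ v1 * R ^ 3 := by
    rw [← vol_ball (0 : E) hR.le]
    exact measureReal_mono inter_subset_right
      (measure_ball_lt_top (x := (0 : E)) (r := R)).ne
  have e3 : ∫ x in Hs τ ∩ ball (0 : E) R, (W * b x - (s * C) * g x - 3 * s * η) =
      W * (∫ x in Hs τ ∩ ball (0 : E) R, b x) - s * C * (∫ x in Hs τ ∩ ball 0 R, g x) -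
        volume.real (Hs τ ∩ ball (0 : E) R) * (3 * s * η) := by
    have i1 : IntegrableOn (fun x => W * b x - (s * C) * g x) (Hs τ ∩ ball (0 : E) R) :=
      (ib.const_mul W).sub (ig.const_mul (s * C))
    rw [integral_sub i1 ic,
      integral_sub (ib.const_mul W) (ig.const_mul (s * C)), integral_const_mul, integral_const_mul,
      setIntegral_const, smul_eq_mul]
  have e4 : ∫ x in Hs τ ∩ ball (0 : E) R, (W * b x - (s * C) * g x - 3 * s * η) ≤
      ∫ x in Hs τ ∩ ball (0 : E) R, G x := by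
    refine setIntegral_mono_on (((ib.const_mul W).sub (ig.const_mul (s * C))).sub ic) iG hm
      fun x hx => ?_
    refine le_trans (le_of_eq ?_) (hpt x hx.1)
    ring
  rw [e1, e2]
  rw [e3] at e4
  have e5 : volume.real (Hs τ ∩ ball (0 : E) R) * (3 * s * η) ≤ v1 * R ^ 3 * (3 * s * η) :=
    mul_le_mul_of_nonneg_right hvol (by positivity)
  linarith

theorem proof (hS : STRI_stmt) : STR_stmt := by
  intro f a A K u α β hf hu hbd hg
  by_contra hcon
  rw [not_le] at hcon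
  set M := Fp f a A with hM
  have hm := m1_pos
  have hv := v1_pos
  set c := m1 * ((α ^ 2 - β ^ 2) / 2 - M) with hc
  have hcpos : 0 < c := mul_pos hm (by linarith)
  set η := c / (96 * v1) with hη
  have hηpos : 0 < η := by positivity
  set C := 5 / 2 + α ^ 2 / (4 * η) with hC
  have hCpos : 0 < C := by positivity
  obtain ⟨R₀, hR₀⟩ := hg (c / (16 * C)) (by positivity)
  set R := max R₀ 1 with hR
  have hR1 : 1 ≤ R := le_max_right _ _
  have hRpos : 0 < R := by linarith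
  have hgR := hR₀ R (le_max_left _ _)
  have hM0 : 0 ≤ M := hf.Fp_nonneg A
  have hβ0 := hbd.β_nonneg
  have hβα := hbd.le
  have hu1 : ContDiff ℝ 1 u := hu.smooth.of_le (by norm_num)
  set G : E → ℝ := fun x => (gsq u x / 2 + Fp f a (u x)) * pd 0 (ze R) x -
    pd 0 u x * gdot u (ze R) x with hG
  have hFc : Continuous (Fp f a) := hf.Fp_contDiff.continuous
  have hGc : Continuous G := by
    have c1 := continuous_gsq hu1
    have c2 := hFc.comp hu.smooth.continuous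
    have c3 := continuous_pd (i := 0) (ze_cd R)
    have c4 := continuous_pd (i := 0) hu1
    have c5 := continuous_gdot hu1 (ze_cd R)
    exact (((c1.div_const 2).add c2).mul c3).sub (c4.mul c5)
  have hG0 : ∀ x, x ∉ ball (0 : E) R → G x = 0 := by
    intro x hx
    have e : ∀ i, pd i (ze R) x = 0 := fun i => pd_ze_far hRpos i hx
    simp only [hG, gdot, e]
    simp
  have hGi : Integrable G := by
    refine hGc.integrable_of_hasCompactSupport ?_
    refine HasCompactSupport.intro (isCompact_closedBall (0 : E) R) fun x hx => ?_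
    exact hG0 x fun h => hx (ball_subset_closedBall h)
  have hzero : ∫ x, G x = 0 := hS f a u (ze R) hf.cont hu.smooth hu.eq (ze_cd R) (ze_cs hRpos)
  rw [integral_split hGi] at hzero
  have hgs : ∀ γ : ℝ, Continuous (gsub γ u) := by
    intro γ
    unfold gsub
    exact ((((continuous_pd hu1).sub continuous_const).pow 2).add ((continuous_pd hu1).pow 2)).add
      ((continuous_pd hu1).pow 2)
  have hGexp : ∀ (γ : ℝ) (x : E), Fp f a (u x) * pd 0 (ze R) x - γ ^ 2 / 2 * pd 0 (ze R) x -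
      4 * R⁻¹ * ((5 / 2 + γ ^ 2 / (4 * η)) * gsub γ u x + 3 * η) ≤ G x := by
    intro γ x
    have h := alg (γ := γ) (q0 := pd 0 u x - γ) (q1 := pd 1 u x) (q2 := pd 2 u x)
      (F := Fp f a (u x)) hηpos (pd_ze_bound hRpos 0 x) (pd_ze_bound hRpos 1 x)
      (pd_ze_bound hRpos 2 x)
    have e1 : γ + (pd 0 u x - γ) = pd 0 u x := by ring
    rw [e1] at h
    simp only [hG, gsq, gdot, gsub, Fin.sum_univ_three]
    exact h
  have hγ : ∀ γ : ℝ, 0 ≤ γ → γ ≤ α → ∀ x, 4 * R⁻¹ * ((5 / 2 + γ ^ 2 / (4 * η)) * gsub γ u x +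
      3 * η) ≤ 4 * R⁻¹ * (C * gsub γ u x + 3 * η) := by
    intro γ h0 h1 x
    have h2 : γ ^ 2 / (4 * η) ≤ α ^ 2 / (4 * η) := by gcongr
    have h3 : 0 ≤ gsub γ u x := by unfold gsub; positivity
    have h4 : (5 / 2 + γ ^ 2 / (4 * η)) * gsub γ u x ≤ C * gsub γ u x :=
      mul_le_mul_of_nonneg_right (by rw [hC]; linarith) h3
    have h5 : 0 ≤ 4 * R⁻¹ := by positivity
    exact mul_le_mul_of_nonneg_left (by linarith) h5
  have hα0 : 0 ≤ α := hβ0.trans hβα
  have p1 : ∀ x ∈ Hs 1, (M - α ^ 2 / 2) * pd 0 (ze R) x - 4 * R⁻¹ * (C * gsub α u x + 3 * η) ≤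
      G x := by
    intro x hx
    have h1 := hGexp α x
    have h2 := hγ α hα0 le_rfl x
    have hx0 : 0 < 1 * x 0 := hx
    have h3 : pd 0 (ze R) x ≤ 0 := by
      rw [pd_ze]
      have : 0 ≤ 4 * (R⁻¹ * x 0) * kk (R⁻¹ • x) * R⁻¹ := by
        have := kk_nonneg (R⁻¹ • x)
        have : 0 ≤ x 0 := by linarith
        positivity
      linarith
    have h4 : M * pd 0 (ze R) x ≤ Fp f a (u x) * pd 0 (ze R) x :=
      mul_le_mul_of_nonpos_right (hf.Fp_le (u x)) h3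
    linarith
  have p2 : ∀ x ∈ Hs (-1), (-(β ^ 2 / 2)) * pd 0 (ze R) x -
      4 * R⁻¹ * (C * gsub β u x + 3 * η) ≤ G x := by
    intro x hx
    have h1 := hGexp β x
    have h2 := hγ β hβ0 hβα x
    have hx0 : 0 < -1 * x 0 := hx
    have h3 : 0 ≤ pd 0 (ze R) x := by
      rw [pd_ze]
      have : 0 ≤ 4 * (R⁻¹ * (-x 0)) * kk (R⁻¹ • x) * R⁻¹ := by
        have := kk_nonneg (R⁻¹ • x)
        have : 0 ≤ - x 0 := by linarith
        positivity
      linarith
    have h4 : 0 ≤ Fp f a (u x) * pd 0 (ze R) x := mul_nonneg (hf.Fp_nonneg (u x)) h3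
    linarith
  have hb : Continuous (pd 0 (ze R)) := continuous_pd (ze_cd R)
  have hb0 : ∀ x, x ∉ ball (0 : E) R → pd 0 (ze R) x = 0 := fun x hx => pd_ze_far hRpos 0 hx
  have s4 : 0 ≤ 4 * R⁻¹ := by positivity
  have q1 := half hηpos.le s4 hRpos hGc hb (hgs α) hG0 hb0 p1
  have q2 := half hηpos.le s4 hRpos hGc hb (hgs β) hG0 hb0 p2
  rw [int_b0 hRpos] at q1
  rw [int_b0' hRpos] at q2
  set I1 := ∫ x in Hs 1 ∩ ball 0 R, gsub α u x
  set I2 := ∫ x in Hs (-1) ∩ ball 0 R, gsub β u x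
  have e1 : 4 * R⁻¹ * C * (I1 + I2) ≤ c / 4 * R ^ 2 := by
    have : 4 * R⁻¹ * C * (I1 + I2) ≤ 4 * R⁻¹ * C * (c / (16 * C) * R ^ 3) :=
      mul_le_mul_of_nonneg_left hgR (by positivity)
    refine this.trans (le_of_eq ?_)
    field_simp
    ring
  have e2 : 3 * (4 * R⁻¹) * η * (v1 * R ^ 3) = c / 8 * R ^ 2 := by
    rw [hη]
    field_simp
    ring
  rw [e2] at q1 q2
  have e3 : (M - α ^ 2 / 2) * -(R ^ 2 * m1) + -(β ^ 2 / 2) * (R ^ 2 * m1) = c * R ^ 2 := by
    rw [hc]; ring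
  have e4 : 4 * R⁻¹ * C * (I1 + I2) = 4 * R⁻¹ * C * I1 + 4 * R⁻¹ * C * I2 := by ring
  have e5 : 0 < c * R ^ 2 := by positivity
  linarith

end Pool.Agent.Helper87.HS3.STR
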